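import Mathlib
import Pool.Agent.Helper9.NS
import Pool.Agent.Helper15.GT.ExtP
import Pool.Agent.Helper17.FF.Tensor

/-!
# IRR v2, block LIFTC: places with values in an algebraically closed field

* `exists_rpl'`: a homomorphism to `k` of a `k`-algebra embedded in `F` extends to a rational place of `F`.
* `exists_big`: a homomorphism of a `k`-algebra embedded in `F` to an algebraically closed extension `Ω` of `k` extends to a
  rational place over `Ω` of the field of fractions of `Ω ⊗ F`.
* `exists_comp`: composition of places.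
-/

set_option linter.unusedSectionVars false

namespace Pool.Agent.Helper26.IV

open VC VF Function Pool.Agent.Helper21.TO Pool.Agent.Helper15.GT
open scoped TensorProduct

universe u

theorem exists_rpl' {k F : Type u} [Field k] [IsAlgClosed k] [Field F] [Algebra k F] {B : Type u} [CommRing B]
    [Algebra k B] (g : B →ₐ[k] F) (hg : Injective g) (θ : B →ₐ[k] k) :
    ∃ w : RPl k F, ∀ b : B, Rs w (g b) (θ b) := by
  obtain ⟨w, hw⟩ := exists_rpl g.range (θ.comp (AlgEquiv.ofInjective g hg).symm.toAlgHom)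
  refine ⟨w, fun b => ?_⟩
  have h1 := hw (AlgEquiv.ofInjective g hg b)
  have h2 : (θ.comp (AlgEquiv.ofInjective g hg).symm.toAlgHom) (AlgEquiv.ofInjective g hg b) = θ b := by
    change θ ((AlgEquiv.ofInjective g hg).symm (AlgEquiv.ofInjective g hg b)) = θ b
    rw [AlgEquiv.symm_apply_apply]
  rw [h2] at h1
  exact h1

theorem exists_big {k F Ω : Type u} [Field k] [IsAlgClosed k] [Field F] [Algebra k F] [Field Ω] [IsAlgClosed Ω]
    [Algebra k Ω] {B : Type u} [CommRing B] [Algebra k B] (g : B →ₐ[k] F) (hg : Injective g) :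
    ∃ (F' : Type u) (_ : Field F') (_ : Algebra Ω F') (f : F →+* F'),
      (∀ c : k, f (algebraMap k F c) = algebraMap Ω F' (algebraMap k Ω c)) ∧
      ∀ θ : B →ₐ[k] Ω, ∃ w' : RPl Ω F', ∀ b : B, Rs w' (f (g b)) (θ b) := by
  let R : Type u := Ω ⊗[k] F
  let F' : Type u := FractionRing R
  let j : R →ₐ[Ω] F' := IsScalarTower.toAlgHom Ω R F'
  have hj : Injective j := IsFractionRing.injective R F'
  let f : F →+* F' := (j : R →+* F').comp (Algebra.TensorProduct.includeRight : F →ₐ[k] R).toRingHom
  refine ⟨F', inferInstance, inferInstance, f, fun c => ?_, fun θ => ?_⟩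
  · have h1 : (Algebra.TensorProduct.includeRight : F →ₐ[k] R) (algebraMap k F c) =
        algebraMap Ω R (algebraMap k Ω c) := by
      rw [AlgHom.commutes]
      rfl
    change j ((Algebra.TensorProduct.includeRight : F →ₐ[k] R) (algebraMap k F c)) = _
    rw [h1, AlgHom.commutes]
  · let g' : Ω ⊗[k] B →ₐ[Ω] F' := j.comp (Algebra.TensorProduct.map (AlgHom.id Ω Ω) g)
    have hg' : Injective g' := by
      have h1 : Injective (Algebra.TensorProduct.map (AlgHom.id Ω Ω) g) := by
        have h2 := Module.Flat.lTensor_preserves_injective_linearMap (M := Ω) g.toLinearMap hg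
        intro x y hxy
        exact h2 hxy
      exact hj.comp h1
    let θ' : Ω ⊗[k] B →ₐ[Ω] Ω := Algebra.TensorProduct.lift (AlgHom.id Ω Ω) θ (fun _ _ => Commute.all _ _)
    obtain ⟨w', hw'⟩ := exists_rpl' g' hg' θ'
    refine ⟨w', fun b => ?_⟩
    have h1 := hw' (1 ⊗ₜ b)
    have h2 : θ' (1 ⊗ₜ b) = θ b := by
      change (Algebra.TensorProduct.lift (AlgHom.id Ω Ω) θ (fun _ _ => Commute.all _ _)) (1 ⊗ₜ b) = θ b
      rw [Algebra.TensorProduct.lift_tmul, map_one, one_mul]
    have h3 : g' (1 ⊗ₜ b) = f (g b) := by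
      change j (Algebra.TensorProduct.map (AlgHom.id Ω Ω) g (1 ⊗ₜ b)) = _
      rw [Algebra.TensorProduct.map_tmul, map_one]
      rfl
    rw [h2, h3] at h1
    exact h1

theorem exists_comp {k F Ω F' : Type u} [Field k] [Field F] [Algebra k F] [Field Ω] [Algebra k Ω]
    [Field F'] [Algebra Ω F'] (f : F →+* F')
    (hf : ∀ c : k, f (algebraMap k F c) = algebraMap Ω F' (algebraMap k Ω c)) (w' : RPl Ω F') (w'' : RPl k Ω) :
    ∃ w : RPl k F, (∀ z c d, Rs w' (f z) c → Rs w'' c d → Rs w z d) ∧
      ∀ z ∈ w.ring, ∃ c ∈ w''.ring, Rs w' (f z) c := by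
  let V : ValuationSubring F :=
    { carrier := {z | ∃ c ∈ w''.ring, Rs w' (f z) c}
      mul_mem' := by
        rintro x y ⟨c, hc, h1⟩ ⟨d, hd, h2⟩
        exact ⟨c * d, w''.ring.mul_mem _ _ hc hd, by rw [map_mul]; exact h1.mul h2⟩
      one_mem' := ⟨1, w''.ring.one_mem, by rw [map_one]; exact rs_one⟩
      add_mem' := by
        rintro x y ⟨c, hc, h1⟩ ⟨d, hd, h2⟩
        exact ⟨c + d, w''.ring.add_mem _ _ hc hd, by rw [map_add]; exact h1.add h2⟩
      zero_mem' := ⟨0, w''.ring.zero_mem, by rw [map_zero]; exact rs_zero⟩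
      neg_mem' := by
        rintro x ⟨c, hc, h1⟩
        exact ⟨-c, w''.ring.neg_mem _ hc, by rw [map_neg]; exact h1.neg⟩
      mem_or_inv_mem' := by
        intro z
        rcases w'.ring.mem_or_inv_mem (f z) with h | h
        · obtain ⟨c, hc⟩ := exists_rs h
          rcases w''.ring.mem_or_inv_mem c with h1 | h1
          · exact Or.inl ⟨c, h1, hc⟩
          · by_cases h0 : c = 0
            · exact Or.inl ⟨c, by rw [h0]; exact w''.ring.zero_mem, hc⟩
            · right
              refine ⟨c⁻¹, h1, ?_⟩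
              rw [map_inv₀]
              exact hc.inv h0
        · obtain ⟨c, hc⟩ := exists_rs h
          by_cases h0 : c = 0
          · right
            refine ⟨0, w''.ring.zero_mem, ?_⟩
            rw [map_inv₀]
            rw [h0] at hc
            exact hc
          · rcases w''.ring.mem_or_inv_mem c with h1 | h1
            · right
              exact ⟨c, h1, by rw [map_inv₀]; exact hc⟩
            · left
              refine ⟨c⁻¹, h1, ?_⟩
              have h2 := hc.inv h0
              rwa [inv_inv] at h2 }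
  have hV : ∀ z, z ∈ V ↔ ∃ c ∈ w''.ring, Rs w' (f z) c := fun z => Iff.rfl
  have key : ∀ z c d, Rs w' (f z) c → Rs w'' c d → z - algebraMap k F d ∈ V.nonunits := by
    intro z c d h1 h2
    rw [ValuationSubring.mem_nonunits_iff_or]
    by_cases h0 : z - algebraMap k F d = 0
    · exact Or.inl h0
    · right
      rw [hV]
      rintro ⟨e, he, h3⟩
      have h4 : Rs w' (f (z - algebraMap k F d)) (c - algebraMap k Ω d) := by
        rw [map_sub, hf]
        exact h1.sub (rs_const _)
      have h5 := h4.mul h3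
      rw [← map_mul, mul_inv_cancel₀ h0, map_one] at h5
      have h6 : (c - algebraMap k Ω d) * e = 1 := h5.unique rs_one
      have h7 : e * (c - algebraMap k Ω d) ∈ w''.ring.nonunits := nonunits_mul he h2
      rw [mul_comm, h6] at h7
      exact one_notMem h7
  refine ⟨⟨V, fun c => ?_, fun z hz => ?_⟩, key, fun z hz => hz⟩
  · rw [hV]
    exact ⟨algebraMap k Ω c, w''.alg c, by rw [hf]; exact rs_const _⟩
  · obtain ⟨c, hc, h1⟩ := (hV z).1 hz
    obtain ⟨d, hd⟩ := exists_rs hc
    exact ⟨d, key z c d h1 hd⟩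

end Pool.Agent.Helper26.IV
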