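import Mathlib
import Pool.Agent.Helper9.NS
import Pool.Agent.Helper26.IV.Pl

/-!
# IRR v2, block LIFTC: lifting curves on the product of two curves to a surface with the function field `k(C₁ × C₂)`

* `sur`: every pair of places of `F₁` and `F₂` comes from a rational place of `F`.
* `liftc`: a morphism from a curve to `C₁ × C₂` comes, after a finite extension `K'`, from a morphism to the closure of `ξ`:
  at each place of `K'` both have the values of one rational place of `F`.
-/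

set_option linter.unusedSectionVars false

namespace Pool.Agent.Helper26.IV

open VC VF Function Pool.Agent.Helper21.TO Pool.Agent.Helper15.GT
open scoped TensorProduct

universe u

section basic

variable {k F : Type u} [Field k] [IsAlgClosed k] [CharZero k] [Field F] [Algebra k F]

/-- The valuation ring of a place, as a subalgebra. -/
def palg (v : Place k F) : Subalgebra k F :=
  { v.ring.toSubring with algebraMap_mem' := v.algebraMap_mem }

theorem exists_rmap (hF : IsFunctionField k F) (v : Place k F) :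
    ∃ θ : palg v →ₐ[k] k, ∀ z : palg v, IsRes v (z : F) (θ z) := by
  have h : ∀ z : palg v, ∃ c, IsRes v (z : F) c := fun z => exists_res hF z.2
  choose r hr using h
  refine ⟨{ toFun := r, map_one' := ?_, map_mul' := ?_, map_zero' := ?_, map_add' := ?_, commutes' := ?_ }, hr⟩
  · exact (hr 1).unique isRes_one
  · intro x y
    exact (hr (x * y)).unique ((hr x).mul (hr y))
  · exact (hr 0).unique isRes_zero
  · intro x y
    exact (hr (x + y)).unique ((hr x).add (hr y))
  · intro c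
    exact (hr (algebraMap k _ c)).unique (isRes_const c)

/-- A place of a function field which has all the values of another one is equal to it. -/
lemma pl_eq_of (hF : IsFunctionField k F) {v v' : Place k F} (h : ∀ z c, IsRes v z c → IsRes v' z c) :
    v' = v := by
  symm
  apply FF.place_eq_of_le hF
  intro z hz
  obtain ⟨c, hc⟩ := exists_res hF hz
  exact (h z c hc).mem

/-- A place of a subfield of finite type comes from a rational place. -/
theorem exists_over {Ω : Type u} [Field Ω] [Algebra k Ω] (hF : IsFunctionField k F) (j : F →ₐ[k] Ω) (v : Place k F) :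
    ∃ w : RPl k Ω, ∀ z c, IsRes v z c → Rs w (j z) c := by
  obtain ⟨θ, hθ⟩ := exists_rmap hF v
  obtain ⟨w, hw⟩ := exists_rpl' (j.comp (palg v).val) (fun a b hab => Subtype.ext (j.toRingHom.injective hab)) θ
  refine ⟨w, fun z c hc => ?_⟩
  have h1 := hw ⟨z, hc.mem⟩
  rw [(hθ ⟨z, hc.mem⟩).unique hc] at h1
  exact h1

theorem exists_side {K Ω : Type u} [Field K] [Algebra k K] [Field Ω] [Algebra k Ω] [Algebra K Ω]
    [IsScalarTower k K Ω] (hF : IsFunctionField k F) (hK : IsFunctionField k K) (c : (curve hF).Mor K) :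
    ∃ (R : Subalgebra k F) (θ : R →ₐ[k] Ω), ∀ (w : RPl k Ω) (v : Place k K),
      (∀ z d, IsRes v z d → Rs w (algebraMap K Ω z) d) →
      ∀ z d, IsRes ((curve hF).eval hK c v) z d → ∃ hz : z ∈ R, Rs w (θ ⟨z, hz⟩) d := by
  cases c with
  | inl p =>
    obtain ⟨θ, hθ⟩ := exists_rmap hF p
    refine ⟨palg p, (Algebra.ofId k Ω).comp θ, fun w v _ z d hd => ?_⟩
    have hd' : IsRes p z d := hd
    refine ⟨hd'.mem, ?_⟩
    have h1 : θ ⟨z, hd'.mem⟩ = d := (hθ ⟨z, hd'.mem⟩).unique hd'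
    change Rs w (algebraMap k Ω (θ ⟨z, hd'.mem⟩)) d
    rw [h1]
    exact rs_const d
  | inr φ =>
    refine ⟨⊤, ((IsScalarTower.toAlgHom k K Ω).comp φ).comp (Subalgebra.val ⊤), fun w v hw z d hd => ?_⟩
    refine ⟨Algebra.mem_top, ?_⟩
    have h1 : IsRes v (φ z) d := over_comap hF hK φ v z d hd
    exact hw _ _ h1

end basic

section main

variable {k F F₁ F₂ : Type u} [Field k] [IsAlgClosed k] [CharZero k] [Field F] [Algebra k F]
  [Field F₁] [Algebra k F₁] [Field F₂] [Algebra k F₂]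

/-- The embedding of the tensor product of two subalgebras. -/
noncomputable def gmap (k₁ : F₁ →ₐ[k] F) (k₂ : F₂ →ₐ[k] F) (R₁ : Subalgebra k F₁) (R₂ : Subalgebra k F₂) :
    R₁ ⊗[k] R₂ →ₐ[k] F :=
  (Algebra.TensorProduct.productMap k₁ k₂).comp (Algebra.TensorProduct.map R₁.val R₂.val)

lemma gmap_inj {k₁ : F₁ →ₐ[k] F} {k₂ : F₂ →ₐ[k] F} (hinj : Injective (Algebra.TensorProduct.productMap k₁ k₂))
    (R₁ : Subalgebra k F₁) (R₂ : Subalgebra k F₂) : Injective (gmap k₁ k₂ R₁ R₂) := by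
  have h1 : Injective (Algebra.TensorProduct.map R₁.val R₂.val) := by
    have h2 : Injective (TensorProduct.map R₁.val.toLinearMap R₂.val.toLinearMap) :=
      TensorProduct.map_injective_of_flat_flat _ _ Subtype.val_injective Subtype.val_injective
    intro x y hxy
    exact h2 hxy
  exact hinj.comp h1

lemma gmap_left (k₁ : F₁ →ₐ[k] F) (k₂ : F₂ →ₐ[k] F) (R₁ : Subalgebra k F₁) (R₂ : Subalgebra k F₂) (a : R₁) :
    gmap k₁ k₂ R₁ R₂ (a ⊗ₜ 1) = k₁ a := by
  change Algebra.TensorProduct.productMap k₁ k₂ (Algebra.TensorProduct.map R₁.val R₂.val (a ⊗ₜ 1)) = _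
  rw [Algebra.TensorProduct.map_tmul, Algebra.TensorProduct.productMap_apply_tmul, map_one, map_one, mul_one]
  rfl

lemma gmap_right (k₁ : F₁ →ₐ[k] F) (k₂ : F₂ →ₐ[k] F) (R₁ : Subalgebra k F₁) (R₂ : Subalgebra k F₂) (a : R₂) :
    gmap k₁ k₂ R₁ R₂ (1 ⊗ₜ a) = k₂ a := by
  change Algebra.TensorProduct.productMap k₁ k₂ (Algebra.TensorProduct.map R₁.val R₂.val (1 ⊗ₜ a)) = _
  rw [Algebra.TensorProduct.map_tmul, Algebra.TensorProduct.productMap_apply_tmul, map_one, map_one, one_mul]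
  rfl

/-- Every pair of places comes from a rational place. -/
theorem sur (h₁ : IsFunctionField k F₁) (h₂ : IsFunctionField k F₂) (k₁ : F₁ →ₐ[k] F) (k₂ : F₂ →ₐ[k] F)
    (hinj : Injective (Algebra.TensorProduct.productMap k₁ k₂)) (x : Place k F₁) (y : Place k F₂) :
    ∃ w : RPl k F, w.pl h₁ k₁ = x ∧ w.pl h₂ k₂ = y := by
  obtain ⟨θ₁, hθ₁⟩ := exists_rmap h₁ x
  obtain ⟨θ₂, hθ₂⟩ := exists_rmap h₂ y
  obtain ⟨w, hw⟩ := exists_rpl' (gmap k₁ k₂ (palg x) (palg y)) (gmap_inj hinj _ _)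
    (Algebra.TensorProduct.productMap θ₁ θ₂)
  refine ⟨w, pl_eq_of h₁ fun z c hc => ?_, pl_eq_of h₂ fun z c hc => ?_⟩
  · rw [isRes_pl]
    have h1 := hw ((⟨z, hc.mem⟩ : palg x) ⊗ₜ 1)
    rw [gmap_left, Algebra.TensorProduct.productMap_apply_tmul, map_one, mul_one,
      (hθ₁ ⟨z, hc.mem⟩).unique hc] at h1
    exact h1
  · rw [isRes_pl]
    have h1 := hw (1 ⊗ₜ (⟨z, hc.mem⟩ : palg y))
    rw [gmap_right, Algebra.TensorProduct.productMap_apply_tmul, map_one, one_mul,
      (hθ₂ ⟨z, hc.mem⟩).unique hc] at h1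
    exact h1

lemma sat_big {Ω F' : Type u} [Field Ω] [Algebra k Ω] [Field F'] [Algebra Ω F'] (f : F →+* F')
    (hf : ∀ c : k, f (algebraMap k F c) = algebraMap Ω F' (algebraMap k Ω c)) {w' : RPl Ω F'} {M : ℕ}
    {ξ : Fin M → F} {b : Fin M → Ω} (h : Vl w' (fun i => f (ξ i)) b) : Sat (van k ξ) b := by
  intro P hP n hn
  have h1 : (MvPolynomial.map (algebraMap k Ω) P) ∈ van Ω (fun i => f (ξ i)) := by
    change MvPolynomial.aeval (fun i => f (ξ i)) (MvPolynomial.map (algebraMap k Ω) P) = 0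
    have h2 : MvPolynomial.aeval ξ P = 0 := hP
    rw [MvPolynomial.aeval_def] at h2
    rw [MvPolynomial.aeval_def, MvPolynomial.eval₂_map]
    have h3 : (algebraMap Ω F').comp (algebraMap k Ω) = f.comp (algebraMap k F) := by
      ext c
      exact (hf c).symm
    rw [h3]
    have h4 := MvPolynomial.eval₂_comp_left f (algebraMap k F) ξ P
    rw [h2, map_zero] at h4
    exact h4.symm
  have h5 := h.sat _ h1 n (hn.map _)
  rwa [MvPolynomial.aeval_map_algebraMap] at h5

theorem one_coord (h₁ : IsFunctionField k F₁) (h₂ : IsFunctionField k F₂) (k₁ : F₁ →ₐ[k] F) (k₂ : F₂ →ₐ[k] F)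
    (hinj : Injective (Algebra.TensorProduct.productMap k₁ k₂)) {M : ℕ} (ξ : Fin M → F) (hξ : ξ ≠ 0)
    {K Ω : Type u} [Field K] [Algebra k K] [Field Ω] [IsAlgClosed Ω] [Algebra k Ω] [Algebra K Ω]
    [IsScalarTower k K Ω] (hK : IsFunctionField k K) (c : ((curve h₁).prod (curve h₂)).Mor K) :
    ∃ b : Fin M → Ω, b ≠ 0 ∧ Sat (van k ξ) b ∧ ∀ (w'' : RPl k Ω) (v : Place k K),
      (∀ z d, IsRes v z d → Rs w'' (algebraMap K Ω z) d) →
      ∃ w : RPl k F, w.pl h₁ k₁ = (curve h₁).eval hK c.1 v ∧ w.pl h₂ k₂ = (curve h₂).eval hK c.2 v ∧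
        ∀ (β : Fin M → k) (r : Ω), β ≠ 0 → (∀ i, Rs w'' (r * b i) (β i)) → Vl w ξ β := by
  obtain ⟨R₁, θ₁, H₁⟩ := exists_side (Ω := Ω) h₁ hK c.1
  obtain ⟨R₂, θ₂, H₂⟩ := exists_side (Ω := Ω) h₂ hK c.2
  obtain ⟨F', _, _, f, hf, hbig⟩ := exists_big (Ω := Ω) (gmap k₁ k₂ R₁ R₂) (gmap_inj hinj _ _)
  obtain ⟨w', hw'⟩ := hbig (Algebra.TensorProduct.productMap θ₁ θ₂)
  have hξ' : (fun i => f (ξ i)) ≠ 0 := by
    obtain ⟨j, hj⟩ := Function.ne_iff.mp hξ
    intro h0
    exact hj ((map_eq_zero f).mp (congrFun h0 j))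
  obtain ⟨b, hb⟩ := exists_vl w' (fun i => f (ξ i)) hξ'
  refine ⟨b, hb.1, sat_big f hf hb, fun w'' v hv => ?_⟩
  obtain ⟨w, hw1, hw2⟩ := exists_comp f hf w' w''
  refine ⟨w, pl_eq_of h₁ fun z d hd => ?_, pl_eq_of h₂ fun z d hd => ?_, fun β r hβ hr => ?_⟩
  · rw [isRes_pl]
    obtain ⟨hz, h3⟩ := H₁ w'' v hv z d hd
    have h1 := hw' ((⟨z, hz⟩ : R₁) ⊗ₜ 1)
    rw [gmap_left, Algebra.TensorProduct.productMap_apply_tmul, map_one, mul_one] at h1
    exact hw1 _ _ _ h1 h3
  · rw [isRes_pl]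
    obtain ⟨hz, h3⟩ := H₂ w'' v hv z d hd
    have h1 := hw' (1 ⊗ₜ (⟨z, hz⟩ : R₂))
    rw [gmap_right, Algebra.TensorProduct.productMap_apply_tmul, map_one, one_mul] at h1
    exact hw1 _ _ _ h1 h3
  · obtain ⟨γ, hγ⟩ := exists_vl w ξ hξ
    obtain ⟨hγ0, s, hs⟩ := id hγ
    choose e he he' using fun i => hw2 _ (hs i).mem
    have heγ : ∀ i, Rs w'' (e i) (γ i) := by
      intro i
      obtain ⟨d, hd⟩ := exists_rs (he i)
      have h4 := hw1 _ _ _ (he' i) hd
      rw [h4.unique (hs i)] at hd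
      exact hd
    have hev : Vl w' (fun i => f (ξ i)) e := by
      refine ⟨?_, f s, fun i => ?_⟩
      · rintro rfl
        apply hγ0
        funext i
        exact (heγ i).unique rs_zero
      · rw [← map_mul]
        exact he' i
    obtain ⟨l, hl, hl'⟩ := hev.unique hb
    have hcross : ∀ i j, β i * γ j = β j * γ i := by
      intro i j
      have h5 := (hr i).mul (heγ j)
      have h6 := (hr j).mul (heγ i)
      have h7 : r * b i * e j = r * b j * e i := by
        rw [hl' i, hl' j]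
        ring
      rw [h7] at h5
      exact h5.unique h6
    obtain ⟨j, hj⟩ := Function.ne_iff.mp hγ0
    have hj' : γ j ≠ 0 := hj
    have hβj : β j ≠ 0 := by
      intro h0
      apply hβ
      funext i
      have := hcross i j
      rw [h0, zero_mul] at this
      exact (mul_eq_zero.mp this).resolve_right hj'
    have h8 := hγ.smul (c := β j / γ j) (div_ne_zero hβj hj')
    have h9 : (fun i => β j / γ j * γ i) = β := by
      funext i
      have := hcross i j
      field_simp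
      linear_combination -this
    rwa [h9] at h8

theorem liftc (h₁ : IsFunctionField k F₁) (h₂ : IsFunctionField k F₂) (k₁ : F₁ →ₐ[k] F) (k₂ : F₂ →ₐ[k] F)
    (hinj : Injective (Algebra.TensorProduct.productMap k₁ k₂)) {M : ℕ} (ξ : Fin M → F) (hξ : ξ ≠ 0)
    {K : Type u} [Field K] [Algebra k K] (hK : IsFunctionField k K) {n : ℕ}
    (c : Fin n → ((curve h₁).prod (curve h₂)).Mor K) :
    ∃ (K' : Type u) (_ : Field K') (_ : Algebra k K') (_ : Algebra K K') (_ : IsScalarTower k K K')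
      (_ : FiniteDimensional K K') (hK' : IsFunctionField k K') (P : Fin n → (proj k (van k ξ)).Mor K'),
      ∀ (v : Place k K') (i : Fin n), ∃ w : RPl k F,
        w.pl h₁ k₁ = (curve h₁).eval hK (c i).1 (VQ.res hK hK' v) ∧
        w.pl h₂ k₂ = (curve h₂).eval hK (c i).2 (VQ.res hK hK' v) ∧
        (proj k (van k ξ)).eval hK' (P i) v = evP ξ hξ w := by
  choose b hb0 hbs H using fun i => one_coord (Ω := AlgebraicClosure K) h₁ h₂ k₁ k₂ hinj ξ hξ hK (c i)
  set S : Set (AlgebraicClosure K) := Set.range (fun p : Fin n × Fin M => b p.1 p.2) with hSdef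
  have hS : Finite S := (Set.finite_range _).to_subtype
  let L : IntermediateField K (AlgebraicClosure K) := IntermediateField.adjoin K S
  have hfin : FiniteDimensional K L := by
    apply IntermediateField.finiteDimensional_adjoin
    intro x _
    exact (Algebra.IsAlgebraic.isAlgebraic x).isIntegral
  have hL : IsFunctionField k L := ff_ext (F := K) hK
  have hbL : ∀ i m, b i m ∈ L := fun i m => IntermediateField.subset_adjoin K S ⟨(i, m), rfl⟩
  let κ : L →ₐ[k] AlgebraicClosure K := L.val.restrictScalars k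
  have hκ : Injective κ := κ.toRingHom.injective
  let bL : Fin n → Fin M → L := fun i m => ⟨b i m, hbL i m⟩
  have hκb : ∀ i m, κ (bL i m) = b i m := fun i m => rfl
  have hbL0 : ∀ i, bL i ≠ 0 := by
    intro i h0
    apply hb0 i
    funext m
    exact congrArg Subtype.val (congrFun h0 m)
  have hsatL : ∀ i, Sat (van k ξ) (bL i) := by
    intro i P hP m hm
    apply hκ
    rw [map_zero]
    have e : κ (MvPolynomial.aeval (bL i) P) = MvPolynomial.aeval (fun m => κ (bL i m)) P :=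
      MvPolynomial.comp_aeval_apply (bL i) κ P
    rw [e]
    exact hbs i P hP m hm
  refine ⟨L, inferInstance, inferInstance, inferInstance, inferInstance, hfin, hL,
    fun i => ppt (bL i) (hbL0 i) (hsatL i), fun v i => ?_⟩
  obtain ⟨w'', hw''⟩ := exists_over hL κ v
  obtain ⟨w, hw1, hw2, hw3⟩ := H i w'' (VQ.res hK hL v) (fun z d hd => by
    have h1 : IsRes v (algebraMap K L z) d := over_res hK hL v z d hd
    exact hw'' _ _ h1)
  refine ⟨w, hw1, hw2, ?_⟩
  obtain ⟨a, ha, has, β, hβ, hβs, e1, e2, hv⟩ := exists_pcoord hL v (ppt (bL i) (hbL0 i) (hsatL i))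
  rw [e2]
  obtain ⟨t, ht⟩ := ppt_eq_iff.1 e1
  have ht0 : t ≠ 0 := by
    intro h0
    apply hbL0 i
    funext m
    rw [← ht m, h0, zero_mul]
    rfl
  have hr : ∀ m, Rs w'' (κ t⁻¹ * b i m) (β m) := by
    intro m
    have h1 := hw'' _ _ (hv m)
    have h2 : κ t⁻¹ * b i m = κ (a m) := by
      rw [← hκb, ← map_mul, ← ht m, ← mul_assoc, inv_mul_cancel₀ ht0, one_mul]
    rwa [h2]
  exact (evP_eq hξ (hw3 β _ hβ hr) hβ hβs).symm

end main

end Pool.Agent.Helper26.IV
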